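import Pool.Agent.H998.LT.Defs

set_option autoImplicit false

/-! Fourier transform of the product function. -/

open MeasureTheory Real
open scoped FourierTransform ComplexConjugate

namespace Pool.Agent.H221.LT

open Pool.Agent.H998.LT

theorem e_mul (a b : ℝ) : e (a + b) = e a * e b := by
  unfold e
  rw [← Complex.exp_add]
  congr 1
  push_cast
  ring

theorem norm_e (t : ℝ) : ‖e t‖ = 1 := by
  unfold e
  have h : (2 * (π : ℂ) * t * Complex.I) = ((2 * π * t : ℝ) : ℂ) * Complex.I := by push_cast; ring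
  rw [h, Complex.norm_exp_ofReal_mul_I]

theorem cont_e (a : ℝ) : Continuous fun y : ℝ => e (-(a * y)) := by
  unfold e
  fun_prop

theorem int_one {g G : ℝ → ℂ} {C : ℝ} (hN : Nice g G C) (a : ℝ) :
    Integrable fun y : ℝ => g y * e (-(a * y)) := by
  have h1 : Integrable fun y : ℝ => C * (1 + y ^ 2)⁻¹ := integrable_inv_one_add_sq.const_mul C
  refine h1.mono' (hN.cont.mul (cont_e a)).aestronglyMeasurable ?_
  filter_upwards with y
  rw [norm_mul, norm_e, mul_one, ← div_eq_mul_inv]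
  exact hN.bound y

theorem four_one {g G : ℝ → ℂ} {C : ℝ} (hN : Nice g G C) (a : ℝ) :
    ∫ y : ℝ, g y * e (-(a * y)) = G a := by
  rw [← hN.fourier a, Real.fourier_real_eq_integral_exp_smul]
  refine integral_congr_ae ?_
  filter_upwards with y
  rw [smul_eq_mul, mul_comm]
  congr 1
  unfold e
  congr 1
  push_cast
  ring

theorem t_ft : S_ft := by
  intro h g h2 k H G H2 K C hh hg hh2 hk ξ
  have hmp := (MeasureTheory.volume_preserving_finTwoArrow ℝ).symm
  have e1 : ∫ v : Fin 2 → ℝ, (ff h g h2 k v : ℂ) * e (-(∑ i, ξ i * v i)) =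
      ∫ p : ℝ × ℝ, (((h p.1 : ℂ) * e (-(ξ 0 * p.1))) * ((g p.2 : ℂ) * e (-(ξ 1 * p.2))) +
        ((h2 p.1 : ℂ) * e (-(ξ 0 * p.1))) * ((k p.2 : ℂ) * e (-(ξ 1 * p.2)))) := by
    rw [← hmp.integral_comp' (g := fun v : Fin 2 → ℝ =>
      (ff h g h2 k v : ℂ) * e (-(∑ i, ξ i * v i)))]
    refine integral_congr_ae ?_
    filter_upwards with p
    have h0 : (MeasurableEquiv.finTwoArrow (α := ℝ)).symm p 0 = p.1 := rfl
    have h1 : (MeasurableEquiv.finTwoArrow (α := ℝ)).symm p 1 = p.2 := rfl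
    unfold ff
    rw [Fin.sum_univ_two, h0, h1, neg_add, e_mul]
    push_cast
    ring
  rw [e1, integral_add, MeasureTheory.Measure.volume_eq_prod,
    integral_prod_mul (fun a : ℝ => (h a : ℂ) * e (-(ξ 0 * a)))
      (fun b : ℝ => (g b : ℂ) * e (-(ξ 1 * b))),
    integral_prod_mul (fun a : ℝ => (h2 a : ℂ) * e (-(ξ 0 * a)))
      (fun b : ℝ => (k b : ℂ) * e (-(ξ 1 * b))),
    four_one hh, four_one hg, four_one hh2, four_one hk]
  · push_cast
    ring
  · exact (int_one hh (ξ 0)).mul_prod (int_one hg (ξ 1))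
  · exact (int_one hh2 (ξ 0)).mul_prod (int_one hk (ξ 1))

end Pool.Agent.H221.LT
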