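import Pool.Agent.H998.LT.Defs

set_option autoImplicit false

/-! Pigeonhole in the dual lattice. -/

open MeasureTheory Real

namespace Pool.Agent.H221.LT

open Pool.Agent.H998.LT Matrix

theorem exists_pq (s t : ℝ) : ∃ p q : ℤ, (p ≠ 0 ∨ q ≠ 0) ∧ |p * s + q * t| < 1 / 4 := by
  by_cases ht : t = 0
  · exact ⟨0, 1, Or.inr one_ne_zero, by rw [ht]; norm_num⟩
  · obtain ⟨n, hn⟩ := exists_nat_gt (4 * |t|)
    have ht0 : 0 < |t| := abs_pos.2 ht
    have hn0 : 0 < n := by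
      have : (0 : ℝ) < n := lt_of_le_of_lt (by positivity) hn
      exact_mod_cast this
    obtain ⟨j, k, hk, -, hle⟩ := Real.exists_int_int_abs_mul_sub_le (s / t) hn0
    refine ⟨k, -j, Or.inl hk.ne', ?_⟩
    have h1 : (k : ℝ) * s + ((-j : ℤ) : ℝ) * t = (k * (s / t) - j) * t := by
      push_cast
      field_simp
      ring
    rw [h1, abs_mul]
    have hn1 : (0 : ℝ) < (n : ℝ) + 1 := by positivity
    calc |↑k * (s / t) - ↑j| * |t| ≤ 1 / (n + 1) * |t| :=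
          mul_le_mul_of_nonneg_right hle (abs_nonneg _)
      _ < 1 / 4 := by
        rw [div_mul_eq_mul_div, one_mul, div_lt_div_iff₀ hn1 (by norm_num)]
        linarith

theorem t_pigeon : S_pigeon := by
  intro A hA
  obtain ⟨p, q, hpq, hlt⟩ := exists_pq (A⁻¹ 0 0) (A⁻¹ 1 0)
  set v : Fin 2 → ℝ := ![(p : ℝ), (q : ℝ)] with hv
  set ξ : Fin 2 → ℝ := v ᵥ* A⁻¹ with hξ
  have hu : IsUnit A.det := isUnit_iff_ne_zero.2 hA
  have key : ∀ z : Fin 2 → ℝ, ∑ i, ξ i * (A.mulVec z) i = p * z 0 + q * z 1 := by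
    intro z
    have h1 : ∑ i, ξ i * (A.mulVec z) i = ξ ⬝ᵥ (A *ᵥ z) := rfl
    rw [h1, Matrix.dotProduct_mulVec, hξ, Matrix.vecMul_vecMul, Matrix.nonsing_inv_mul A hu,
      Matrix.vecMul_one]
    simp [dotProduct, Fin.sum_univ_two, hv]
  have hξ0 : ξ 0 = p * A⁻¹ 0 0 + q * A⁻¹ 1 0 := by
    simp [hξ, Matrix.vecMul, dotProduct, Fin.sum_univ_two, hv]
  refine ⟨ξ, ?_, by rw [hξ0]; exact hlt, ?_⟩
  · intro h0
    have h1 := key ![1, 0]
    have h2 := key ![0, 1]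
    rw [h0] at h1 h2
    simp at h1 h2
    rcases hpq with h | h
    · exact h (by exact_mod_cast h1.symm)
    · exact h (by exact_mod_cast h2.symm)
  · intro z
    refine ⟨p * z 0 + q * z 1, ?_⟩
    rw [key]
    push_cast
    rfl

end Pool.Agent.H221.LT
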